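import Mathlib

set_option autoImplicit false

namespace Pool.Agent.Results.MP_c51eea_al.Dihedral

open DihedralGroup

/-- `G` is the unit group of a finite ring. -/
def Realizable (G : Type) [Group G] : Prop := ∃ (R : Type) (_ : Ring R), Finite R ∧ Nonempty (Rˣ ≃* G)

variable {R : Type} [Ring R] [Finite R]

lemma unit {a b : R} (h : a * b = 1) : IsUnit a := by
  have h1 : Function.Injective fun x => a * x := Finite.injective_iff_surjective.2 fun x =>
    ⟨b * x, by simp [← mul_assoc, h]⟩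
  exact ⟨⟨a, b, h, h1 (by simp [← mul_assoc, h])⟩, rfl⟩

lemma idem : ∃ m : ℕ, (3 : R) ^ (m + 1) * 3 ^ (m + 1) = 3 ^ (m + 1) := by
  obtain ⟨i, j, h1, h2⟩ := Finite.exists_ne_map_eq_of_infinite fun n : ℕ => (3 : R) ^ n
  wlog h : i < j generalizing i j
  · exact this j i h1.symm h2.symm (by omega)
  obtain ⟨d, rfl⟩ := Nat.exists_eq_add_of_lt h
  have key : ∀ k, (3 : R) ^ (i + k * (d + 1)) = 3 ^ i := fun k => by
    induction k with
    | zero => simp
    | succ k ih => rw [add_mul, ← add_assoc, pow_add, ih, ← pow_add, one_mul, ← add_assoc, ← h2]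
  obtain ⟨m, hm⟩ : ∃ m, (i + 1) * (d + 1) = i + m + 1 := ⟨(i + 1) * d, by ring⟩
  refine ⟨i + m, ?_⟩
  rw [← pow_add, show i + m + 1 + (i + m + 1) = i + (i + 1) * (d + 1) + (m + 1) by omega, pow_add, key, ← pow_add,
    add_assoc]

lemma step {e k x x' y : R} (e1 : ∀ a, a * e = e * a) (e2 : e * e = e) (e3 : 3 * k = e) (k1 : ∀ a, a * k = k * a)
    (h1 : x ^ 8 = 1) (h2 : x' = x ^ 7) (h3 : y * y = 1) (h4 : y * x = x' * y) (h5 : y * x' = x * y)
    (h : ∀ w, IsUnit w → w * x = x * w ∨ w * x = x' * w) :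
    e * (x ^ 2 - 1) = 0 ∨ e * (x + x ^ 2 - x' - 1) = 0 := by
  have a1 : (1 + x + y) * (1 + x' - y) = 1 + x + x' := by
    have : x * x' = 1 := by rw [h2, ← pow_succ', h1]
    simp only [add_mul, mul_add, mul_sub, one_mul, mul_one, h3, h5, this]; abel
  have a2 : (1 + x + x') * (x * (3 * (1 + x ^ 3 + x ^ 6) - (1 + x + x ^ 2 + x ^ 3 + x ^ 4 + x ^ 5 + x ^ 6 + x ^ 7)))
      = 3 := by
    have := congrArg (Polynomial.aeval (R := ℤ) x) (show (1 + Polynomial.X + Polynomial.X ^ 7) * (Polynomial.X * (3 * (1 +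
      Polynomial.X ^ 3 + Polynomial.X ^ 6) - (1 + Polynomial.X + Polynomial.X ^ 2 + Polynomial.X ^ 3 + Polynomial.X ^ 4 +
      Polynomial.X ^ 5 + Polynomial.X ^ 6 + Polynomial.X ^ 7))) = 3 + (Polynomial.X ^ 8 - 1) * (3 - Polynomial.X ^ 2 -
      2 * Polynomial.X - Polynomial.X ^ 7 + 2 * Polynomial.X ^ 6 - Polynomial.X ^ 5 - Polynomial.X ^ 4 + 2 *
      Polynomial.X ^ 3 : Polynomial ℤ) by ring)
    simpa [h1, h2, map_ofNat] using this
  obtain ⟨p, hp⟩ : ∃ p, (1 + x + y) * p = 3 := ⟨_, by rw [← mul_assoc, a1, a2]⟩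
  have u : IsUnit (e * (1 + x + y) + (1 - e)) := unit (b := e * (p * k) + (1 - e)) (by
    have : e * (1 + x + y) * (e * (p * k)) = e := by
      rw [mul_assoc, ← mul_assoc _ e, e1, mul_assoc e, ← mul_assoc _ p, hp, e3, e2, e2]
    have b1 : e * (1 - e) = 0 := by rw [mul_sub, e2, mul_one, sub_self]
    have b2 : (1 - e) * e = 0 := by rw [e1, b1]
    generalize 1 + x + y = t at *
    rw [add_mul, mul_add, mul_add, this, mul_assoc e, show t * (1 - e) = (1 - e) * t by
      rw [mul_sub, sub_mul, e1, mul_one, one_mul], ← mul_assoc, b1, ← mul_assoc, b2, mul_sub, b2]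
    simp)
  have m : ∀ a b, (e * (1 + x + y) + (1 - e)) * a = b * (e * (1 + x + y) + (1 - e)) →
      e * ((1 + x + y) * a - b * (1 + x + y)) = 0 := fun a b h => by
    have := congrArg (e * ·) h
    simp only [mul_add, add_mul, mul_sub, sub_mul, ← mul_assoc, e2, mul_one, one_mul] at this ⊢
    simp only [mul_assoc, e1, ← mul_assoc e e, e2] at this ⊢
    simp only [← mul_assoc, e1, ← mul_assoc e e, e2] at this ⊢
    rw [sub_eq_zero]; simpa using this
  have xx : x * x' = 1 := by rw [h2, ← pow_succ', h1]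
  have xx' : x' * x = 1 := by rw [h2, ← pow_succ, h1]
  refine (h _ u).imp (fun c => ?_) fun c => ?_
  · have := congrArg (fun t => -(x * t * y)) (m _ _ c)
    simp only [← mul_assoc, e1, mul_zero, zero_mul, neg_zero] at this
    rw [← this, mul_assoc e, mul_assoc e, ← mul_neg]
    congr 1
    simp only [add_mul, mul_add, mul_sub, sub_mul, h4, mul_assoc, h3, ← mul_assoc x x', xx]
    noncomm_ring
  · rw [← m _ _ c]
    congr 1
    simp only [add_mul, mul_add, h4, xx']
    noncomm_ring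

lemma main {x x' y : R} (h1 : x ^ 8 = 1) (h2 : x' = x ^ 7) (h3 : y * y = 1) (h4 : y * x = x' * y)
    (h : ∀ w, IsUnit w → w * x = x * w ∨ w * x = x' * w) (hu : ∀ u : Rˣ, u ^ 3 = 1 → u = 1) : x ^ 4 = 1 := by
  have xx : x * x' = 1 := by rw [h2, ← pow_succ', h1]
  have xx' : x' * x = 1 := by rw [h2, ← pow_succ, h1]
  have h5 : y * x' = x * y := by
    rw [← one_mul (y * x'), ← xx, mul_assoc, ← mul_assoc x', ← h4, mul_assoc, xx, mul_one]
  obtain ⟨m, e2⟩ := idem (R := R)
  have c3 : ∀ (n : ℕ) (a : R), a * 3 ^ n = 3 ^ n * a := fun n a => ((Commute.ofNat_right a 3).pow_right n).eq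
  set e : R := 3 ^ (m + 1) with he
  have e1 : ∀ a, a * e = e * a := c3 _
  have nil : ∀ n : R, n * n = 0 → 3 * n = 0 → n = 0 := fun n a b => by
    have := congrArg Units.val (hu ⟨1 + n, 1 - n, by noncomm_ring [a], by noncomm_ring [a]⟩ (Units.ext (by
      have : (1 + n) ^ 3 = 1 + 3 * n + 3 * (n * n) + n * (n * n) := by noncomm_ring
      simpa [a, b] using this)))
    simpa using this
  have f1 : ∀ a, a * (1 - e) = (1 - e) * a := fun a => by rw [mul_sub, sub_mul, e1, mul_one, one_mul]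
  have f2 : (1 - e) * (1 - e) = 1 - e := by rw [mul_sub, mul_one, sub_mul, e2]; simp
  have f3 : ∀ j, (3 : R) ^ (j + 1) * (1 - e) = 0 → 3 * (1 - e) = 0 := fun j => by
    induction j with
    | zero => simp
    | succ j ih =>
      refine fun c => ih (nil _ ?_ (by rw [← mul_assoc, ← pow_succ', c]))
      rw [mul_assoc, f1 (3 ^ (j + 1)), ← mul_assoc (1 - e), f2, ← f1, ← mul_assoc, ← pow_add,
        show j + 1 + (j + 1) = j + (j + 1 + 1) by ring, pow_add, mul_assoc, c, mul_zero]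
  have f4 := f3 m (by rw [← he, mul_sub, e2, mul_one, sub_self])
  have f5 : ∀ y : R, y * y = 1 → (1 - e) * ((1 - y) * x * (1 + y)) = 0 := fun y hy => nil _ (by
    have : (1 + y) * (1 - y) = 0 := by noncomm_ring [hy]
    rw [mul_assoc, ← mul_assoc _ (1 - e), f1, mul_assoc (1 - e), mul_assoc _ (1 + y), mul_assoc (1 - y) x (1 + y),
      ← mul_assoc (1 + y), this]; simp) (by rw [← mul_assoc, f4, zero_mul])
  have f6 : (1 - e) * (x ^ 2 - 1) = 0 := by
    have a : x ^ 2 - 1 = x * (3 * (x * y - y * x) - ((1 - y) * x * (1 + y) - (1 - -y) * x * (1 + -y))) * y := by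
      have : x * (x * y - y * x) * y = x ^ 2 - 1 := by
        rw [h4, ← sub_mul, mul_assoc, mul_assoc, h3, mul_one, mul_sub, xx, sq]
      rw [← this]; noncomm_ring
    rw [a, ← mul_assoc, ← mul_assoc, ← f1 x, mul_assoc x, mul_sub, mul_sub (1 - e) (_ * _ * _), f5 y h3,
      f5 (-y) (by simpa using h3), ← mul_assoc, ← f1, f4]
    simp
  have s1 := step e1 e2 (k := 3 ^ m) (by rw [he, pow_succ']) (c3 m) h1 h2 h3 h4 h5 h
  have s2 := step (x := -x) (x' := -x') (y := y) e1 e2 (k := 3 ^ m) (by rw [he, pow_succ']) (c3 m)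
    (by rw [← h1]; exact Even.neg_pow (by decide) x) (by rw [h2]; exact (Odd.neg_pow (by decide) x).symm) h3
    (by simp [h4]) (by simp [h5]) fun w hw => by simpa using h w hw
  rw [neg_sq] at s2
  have f7 : e * (x ^ 4 - 1) = 0 := by
    have a : x ^ 4 - 1 = (x ^ 2 - 1) * (x ^ 2 + 1) := by noncomm_ring
    rcases s1 with s1 | s1
    · rw [a, ← mul_assoc, s1, zero_mul]
    rcases s2 with s2 | s2
    · rw [a, ← mul_assoc, s2, zero_mul]
    have b : x ^ 4 - 1 = (x + x ^ 2 - x' - 1) * (x * (x - 1) + 1) + (-x + x ^ 2 - -x' - 1) := by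
      have : x' * (x * (x - 1)) = x - 1 := by rw [← mul_assoc, xx', one_mul]
      rw [mul_add, sub_mul, sub_mul, this]; noncomm_ring
    rw [b, mul_add, ← mul_assoc, s1, s2]; simp
  have a : x ^ 4 - 1 = (x ^ 2 - 1) * (x ^ 2 + 1) := by noncomm_ring
  have b : x ^ 4 - 1 = e * (x ^ 4 - 1) + (1 - e) * (x ^ 2 - 1) * (x ^ 2 + 1) := by
    rw [mul_assoc, ← a, ← add_mul]; simp
  rw [← sub_eq_zero, b, f7, f6]
  simp

lemma no (H : Type) [Group H] (hH : IsPGroup 2 H) (hG : IsPGroup 2 (DihedralGroup 8)) :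
    ¬ Realizable (DihedralGroup 8 × H) := by
  rintro ⟨R, _, _, ⟨φ⟩⟩
  have c : ∀ g : DihedralGroup 8 × H, g * (r 1, 1) = (r 1, 1) * g ∨ g * (r 1, 1) = (r 1, 1) ^ 7 * g := by
    rintro ⟨i | i, h⟩
    · exact Or.inl (by simp [add_comm])
    · exact Or.inr (Prod.ext ((by decide : ∀ i : ZMod 8, sr i * r 1 = r 1 ^ 7 * sr i) i) (by simp))
  have := main (x := (φ.symm (r 1, 1)).1) (y := (φ.symm (sr 0, 1)).1)
    (by rw [← Units.val_pow_eq_pow_val, ← map_pow, show (r 1, (1 : H)) ^ 8 = 1 from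
      Prod.ext (by decide : r (1 : ZMod 8) ^ 8 = 1) (by simp)]; simp)
    rfl (by rw [← Units.val_mul, ← map_mul, show (sr 0, (1 : H)) * (sr 0, 1) = 1 from
      Prod.ext (sr_mul_self _) (by simp)]; simp)
    (by
      rw [← Units.val_pow_eq_pow_val, ← Units.val_mul, ← Units.val_mul, ← map_pow, ← map_mul, ← map_mul]
      exact congrArg (fun g => (φ.symm g).1) (Prod.ext (by decide : sr (0 : ZMod 8) * r 1 = r 1 ^ 7 * sr 0) (by simp)))
    (by
      rintro _ ⟨w, rfl⟩
      obtain ⟨g, rfl⟩ := φ.symm.surjective w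
      simp only [← Units.val_pow_eq_pow_val, ← Units.val_mul, ← map_pow, ← map_mul]
      exact (c g).imp (fun h => by rw [h]) fun h => by rw [h])
    fun u hu => by
      obtain ⟨a, ha⟩ := hG (φ u).1
      obtain ⟨b, hb⟩ := hH (φ u).2
      have : u ^ 2 ^ (a + b) = 1 := φ.injective (by
        rw [map_pow, map_one]
        exact Prod.ext (by simp [pow_add, pow_mul, ha]) (by simp [pow_add, pow_mul', hb]))
      simpa [Nat.Coprime.gcd_eq_one (show Nat.Coprime 3 (2 ^ (a + b)) from Nat.Coprime.pow_right _ (by decide))]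
        using pow_gcd_eq_one.2 ⟨hu, this⟩
  rw [← Units.val_pow_eq_pow_val, ← map_pow, Units.val_eq_one, map_eq_one_iff _ φ.symm.injective] at this
  exact (by decide : r (1 : ZMod 8) ^ 4 ≠ 1) (congrArg Prod.fst this)

/-- The dihedral group of order 16 is a nonabelian 2-group that is not realizable, and no direct product of it
with a 2-group is realizable. -/
theorem result : ∃ (G : Type) (_ : Group G), Finite G ∧ IsPGroup 2 G ∧ (∃ a b : G, a * b ≠ b * a) ∧
    ¬ Realizable G ∧ ∀ (H : Type) [Group H], Finite H → IsPGroup 2 H → ¬ Realizable (G × H) := by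
  have hG : IsPGroup 2 (DihedralGroup 8) := IsPGroup.of_card (n := 4) (by rw [nat_card]; rfl)
  exact ⟨DihedralGroup 8, inferInstance, inferInstance, hG, ⟨r 1, sr 0, by decide⟩, fun ⟨R, _, h, ⟨φ⟩⟩ =>
    no Unit (fun _ => ⟨0, rfl⟩) hG ⟨R, _, h, ⟨φ.trans MulEquiv.prodUnique.symm⟩⟩, fun H _ _ h => no H h hG⟩

end Pool.Agent.Results.MP_c51eea_al.Dihedral
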